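import Mathlib

namespace Pool.Agent.HoSi

/-- Vertices: `inl (k, i)` is vertex `i` of `P_k`, `inr (k, i)` is vertex `i` of `Q_k`. -/
abbrev V : Type := ZMod 5 × ZMod 5 ⊕ ZMod 5 × ZMod 5

/-- The generating relation of the construction in the problem file. -/
def rel : V → V → Prop
  | .inl (j, i), .inl (k, l) => j = k ∧ l = i + 2
  | .inr (j, i), .inr (k, l) => j = k ∧ l = i + 1
  | .inl (j, i), .inr (k, l) => l = j * k + i
  | .inr _, .inl _ => False

/-- The Hoffman-Singleton graph. -/
def HS : SimpleGraph V := SimpleGraph.fromRel rel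

end Pool.Agent.HoSi
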