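import Pool.Agent.Lib.MP_78d2e3_co.Defs

namespace Pool.Agent.HoSi

instance : DecidableRel rel := fun u v => by
  unfold rel; split <;> infer_instance

def dec (a : Fin 50) : V :=
  if a.val < 25 then .inl (((a.val / 5 : ℕ) : ZMod 5), ((a.val % 5 : ℕ) : ZMod 5))
  else .inr ((((a.val - 25) / 5 : ℕ) : ZMod 5), ((a.val % 5 : ℕ) : ZMod 5))

def relB (a b : ℕ) : Bool :=
  if a < 25 then
    if b < 25 then a / 5 == b / 5 && b % 5 == (a + 2) % 5
    else b % 5 == ((a / 5) * ((b - 25) / 5) + a) % 5
  else if b < 25 then false else a / 5 == b / 5 && b % 5 == (a + 1) % 5

def adjB (a b : ℕ) : Bool := relB a b || relB b a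

theorem adj_iff : ∀ a b : Fin 50, HS.Adj (dec a) (dec b) ↔ adjB a.val b.val = true := by
  intro a b
  simp only [HS, SimpleGraph.fromRel_adj]
  revert a b
  decide +kernel

theorem dec_bij : Function.Bijective dec := by
  rw [Fintype.bijective_iff_injective_and_card]
  refine ⟨?_, by simp [ZMod.card]⟩
  intro a b
  revert a b
  decide +kernel

def dig (P : ℕ) (u : ℕ) : ℕ := P / 64 ^ u % 64 % 50

def f (P : ℕ) (u : Fin 50) : Fin 50 := ⟨dig P u.val, Nat.mod_lt _ (by norm_num)⟩

def injB (P : ℕ) : Bool :=
  (List.range 50).all fun u => (List.range 50).all fun v => u == v || dig P u != dig P v

theorem inj_of (P : ℕ) (h : injB P = true) : Function.Injective (f P) := by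
  intro u v huv
  simp only [injB, List.all_eq_true, List.mem_range] at h
  have h1 := h u.val u.isLt v.val v.isLt
  have h2 : dig P u.val = dig P v.val := congrArg Fin.val huv
  simp only [h2, bne_self_eq_false, Bool.or_false, beq_iff_eq] at h1
  exact Fin.ext h1

def copy (P : ℕ) : SimpleGraph (Fin 50) := HS.comap (fun u => dec (f P u))

theorem copy_iso (P : ℕ) (h : injB P = true) : Nonempty (copy P ≃g HS) := by
  have hb : Function.Bijective (fun u => dec (f P u)) :=
    dec_bij.comp (Finite.injective_iff_bijective.mp (inj_of P h))
  exact ⟨SimpleGraph.Iso.comap (Equiv.ofBijective _ hb) HS⟩

theorem copy_adj (P : ℕ) (u v : Fin 50) :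
    (copy P).Adj u v ↔ adjB (dig P u.val) (dig P v.val) = true := adj_iff _ _

def cnt (L : List ℕ) (u v : ℕ) : ℕ :=
  (L.map fun P => if adjB (dig P u) (dig P v) = true then 1 else 0).sum

open Classical in
/-- `m` copies covering every pair exactly `lam` times. -/
def Dec (m lam : ℕ) : Prop :=
  ∃ H : Fin m → SimpleGraph (Fin 50), (∀ t, Nonempty (H t ≃g HS)) ∧
    ∀ u v, u ≠ v → (∑ t, if (H t).Adj u v then 1 else 0) = lam

open Classical in
theorem sum_eq_cnt (L : List ℕ) (u v : Fin 50) :
    (∑ t : Fin L.length, if (copy L[t.1]).Adj u v then 1 else 0) = cnt L u.val v.val := by
  unfold cnt
  rw [← Fin.sum_univ_fun_getElem L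
    (fun P => if adjB (dig P u.val) (dig P v.val) = true then 1 else 0)]
  refine Finset.sum_congr rfl fun t _ => ?_
  simp only [copy_adj]

def chk (L : List ℕ) (p : ℕ → Bool) : Bool :=
  L.all injB && (List.range 50).all fun u => (List.range 50).all fun v => u == v || p (cnt L u v)

theorem of_chk (L : List ℕ) (p : ℕ → Bool) (h : chk L p = true) :
    (∀ t : Fin L.length, Nonempty (copy L[t.1] ≃g HS)) ∧
      ∀ u v : Fin 50, u ≠ v → p (cnt L u.val v.val) = true := by
  simp only [chk, Bool.and_eq_true, List.all_eq_true, List.mem_range] at h
  refine ⟨fun t => copy_iso _ (h.1 _ (List.getElem_mem _)), fun u v huv => ?_⟩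
  have h1 := h.2 u.val u.isLt v.val v.isLt
  simp only [Bool.or_eq_true, beq_iff_eq] at h1
  exact h1.resolve_left fun e => huv (Fin.ext e)

theorem dec_of_chk (L : List ℕ) (lam : ℕ) (h : chk L (fun n => n == lam) = true) :
    Dec L.length lam := by
  obtain ⟨h1, h2⟩ := of_chk L _ h
  refine ⟨fun t => copy L[t.1], h1, fun u v huv => ?_⟩
  rw [sum_eq_cnt]
  simpa using h2 u v huv

theorem Dec.add {m n a b : ℕ} (h1 : Dec m a) (h2 : Dec n b) : Dec (m + n) (a + b) := by
  obtain ⟨H, hH, hc⟩ := h1
  obtain ⟨K, hK, kc⟩ := h2
  refine ⟨Fin.append H K, fun t => ?_, fun u v huv => ?_⟩
  · refine Fin.addCases (fun i => ?_) (fun i => ?_) t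
    · rw [Fin.append_left]; exact hH i
    · rw [Fin.append_right]; exact hK i
  · rw [Fin.sum_univ_add]
    rw [← hc u v huv, ← kc u v huv]
    congr 1
    · exact Finset.sum_congr rfl fun i _ => by rw [Fin.append_left]
    · exact Finset.sum_congr rfl fun i _ => by rw [Fin.append_right]

def L2 : List ℕ :=
  [14132262397877268784159241198410186991586590389569392428959583273749319633565085476075074,
   8292595763033984797804661264057529134240093152894752151373835929904030272434567408092238,
   5613056436364649499179687549996608081292417795969768734930742237614197824112037090112269,
   7826053285427923634883144861847759013673748332327549047633580751589590103250122188416859,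
   22255883710463621111555834549576901266733057987551129580172968377931595279792701401764321,
   9980312489530235524735167784732412051350288196806380276712865450654658043796838611569570,
   17759712165144910291342544301580676005198385723031516316776456848764168745795482737309121,
   24463433760727311888029223525413875782679490683944297978699379386290384591205415128224194,
   20002368311193083270067323611823840194697230035149600627546186598952203525822089641215949,
   18632073368850901365450179170601655286034196028826971364052841158498274883026152881676508,
   12280115840059054888482555842977019228861308986523337181937027213329870114642273825547483,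
   20651009571774383070443148996634460539161687433410989050613291793438723105171972405716080,
   23057577130447661093111285957727513025929064909451132538288371596968535934076249982413199,
   4673402075892829280029785930932395397655932727805786441528317258912104413142523803760769]

def L3 : List ℕ :=
  [14132262397877268784159241198410186991586590389569392428959583273749319633565085476075074,
   8292595763033984797804661264057529134240093152894752151373835929904030272434567408092238,
   5613056436364649499179687549996608081292417795969768734930742237614197824112037090112269,
   7826053285427923634883144861847759013673748332327549047633580751589590103250122188416859,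
   22255883710463621111555834549576901266733057987551129580172968377931595279792701401764321,
   9980312489530235524735167784732412051350288196806380276712865450654658043796838611569570,
   17759712165144910291342544301580676005198385723031516316776456848764168745795482737309121,
   4534340465286668643101381976317450933118411908132694101434108082479459300401560758007362,
   18265300657777295337906504344563220439752050366913815543988007788772384633975953459872846,
   15595905355463208538447534491247896236272668589978098264758620143453807514490399494583053,
   1686547179993841222067063367263991197704055312630534536306485256138575432490908366825307,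
   12069612904092345959414188123887907678018769641325096679027313829989547468321564426539489,
   9543999650828419278227457388194669434467577734695848973806604447642549059821845314948002,
   19126932240937541158871341400721786773507918448134992452402943289318324535537998301099457,
   17270872998278345911984429761881343835490287193876856102839970193134642804322800741570754,
   679906309355369012209957202168301763074717409894326595488570366750084740772801892951822,
   1189354408347194483458427155807000753713344651035456214859539089404935171972547845207053,
   7097616043356534560182824484274892384719657781917346885443437045053927595538977069015771,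
   6560827610018153620117957075085638249096743975067794217858077657464044335017952530330593,
   13657769226740753280682764520724587620062361193500589852983322853521981432493781758184226,
   16467165923604196141282351313260704546426381728252553824148218683434150287062391311582465]

def L8 : List ℕ :=
  [1384393226812252266909475945290677054865853693960968757729940087731860812592172203488845888,
   1008619565852582382552336380495287836155917726218221364371112343358877576815642950211473456,
   1403536931121965519652179864451695392835806905352063640741212308999802568698319452128939040,
   196780665339744471816941526618606091787485099474909694010244338773421979381770267220183042,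
   371746702868216210936521398071823518105225814066794553510420571006751646165500603421294721,
   562781177417151313550550043042373834595047983565163085554203132980073596290068233541473408,
   1442856176902601878885445903210771883678886964922193895398647348929122528792113013955589184,
   193568066665444661145037996247428658345580599970720689312507868704611942548734346845824192]

theorem dec2 : Dec 14 2 := dec_of_chk L2 2 (by decide +kernel)

theorem dec3 : Dec 21 3 := dec_of_chk L3 3 (by decide +kernel)

theorem dec_all (lam : ℕ) (h : 2 ≤ lam) : Dec (7 * lam) lam := by
  induction lam using Nat.strong_induction_on with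
  | _ n ih =>
    rcases (by omega : n = 2 ∨ n = 3 ∨ 4 ≤ n) with rfl | rfl | h4
    · exact dec2
    · exact dec3
    · have := (ih (n - 2) (by omega) (by omega)).add dec2
      have e1 : 7 * (n - 2) + 14 = 7 * n := by omega
      have e2 : n - 2 + 2 = n := by omega
      rwa [e1, e2] at this

theorem multi (lam : ℕ) (h : 2 ≤ lam) :
    ∃ H : Fin (7 * lam) → SimpleGraph (Fin 50), (∀ t, Nonempty (H t ≃g HS)) ∧
      ∀ u v, u ≠ v → {t | (H t).Adj u v}.ncard = lam := by
  classical
  obtain ⟨H, h1, h2⟩ := dec_all lam h
  refine ⟨H, h1, fun u v huv => ?_⟩
  have h3 := h2 u v huv
  rw [Finset.sum_boole] at h3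
  rw [Set.ncard_eq_toFinset_card']
  simpa using h3

theorem cover8 : ∃ H : Fin 8 → SimpleGraph (Fin 50), (∀ t, Nonempty (H t ≃g HS)) ∧
    ∀ u v, u ≠ v → ∃ t, (H t).Adj u v := by
  classical
  obtain ⟨h1, h2⟩ := of_chk L8 (fun n => n != 0) (by decide +kernel)
  refine ⟨fun t : Fin L8.length => copy L8[t.1], h1, fun u v huv => ?_⟩
  have h3 := h2 u v huv
  rw [← sum_eq_cnt] at h3
  by_contra hn
  push Not at hn
  simp [hn] at h3

end Pool.Agent.HoSi
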